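import Mathlib

/-!
# Dedekind finiteness of quotients is a closed condition on the space of closed ideals
-/

namespace Pool.Agent.Results.MP_332c3b_lc.DedekindFiniteClosed

open Set Topology Filter

universe u

/-- `Ideal'(A)`: the proper closed two-sided ideals of the normed ring `A`. -/
def ProperClosedIdeal (A : Type u) [NormedRing A] : Type u :=
  {K : TwoSidedIdeal A // IsClosed (K : Set A) ∧ K ≠ ⊤}

/-- The Wijsman topology on `Ideal'(A)`: the weakest topology making
`K ↦ d(x,K) = inf_{z ∈ K} ‖x - z‖` continuous for every `x ∈ A`. -/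
noncomputable instance (A : Type u) [NormedRing A] :
    TopologicalSpace (ProperClosedIdeal A) :=
  ⨅ x : A, TopologicalSpace.induced
    (fun K : ProperClosedIdeal A => Metric.infDist x (K.1 : Set A)) inferInstance

/-- `𝒟ℱ`: the set of proper closed ideals `K` for which the quotient ring `A/K` is Dedekind
finite, i.e. `a * b = 1` implies `b * a = 1` in `A/K`. -/
def DF (A : Type u) [NormedRing A] : Set (ProperClosedIdeal A) :=
  {K | ∀ a b : K.1.ringCon.Quotient, a * b = 1 → b * a = 1}

section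

variable {A : Type u} [NormedRing A]

theorem continuous_infDist (x : A) :
    Continuous (fun K : ProperClosedIdeal A => Metric.infDist x (K.1 : Set A)) := by
  rw [continuous_iff_le_induced]
  exact iInf_le _ x

theorem mk_eq_mk_iff (K : TwoSidedIdeal A) (x y : A) :
    (x : K.ringCon.Quotient) = (y : K.ringCon.Quotient) ↔ x - y ∈ K := by
  rw [RingCon.eq, TwoSidedIdeal.rel_iff]

theorem mem_DF_iff (K : ProperClosedIdeal A) :
    K ∈ DF A ↔ ∀ a b : A, a * b - 1 ∈ K.1 → b * a - 1 ∈ K.1 := by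
  constructor
  · intro h a b hab
    have h1 : ((a : K.1.ringCon.Quotient) * (b : K.1.ringCon.Quotient)) = 1 := by
      rw [← RingCon.coe_mul, ← RingCon.coe_one]
      exact (mk_eq_mk_iff K.1 _ _).mpr hab
    have h2 := h _ _ h1
    rw [← RingCon.coe_mul, ← RingCon.coe_one] at h2
    exact (mk_eq_mk_iff K.1 _ _).mp h2
  · intro h a b
    induction a using Quotient.inductionOn' with
    | h a =>
      induction b using Quotient.inductionOn' with
      | h b =>
        intro hab
        have h1 : a * b - 1 ∈ K.1 := by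
          rw [← mk_eq_mk_iff, RingCon.coe_mul, RingCon.coe_one]
          exact hab
        have h2 := h a b h1
        rw [← mk_eq_mk_iff, RingCon.coe_mul, RingCon.coe_one] at h2
        exact h2

theorem infDist_nonempty (K : TwoSidedIdeal A) : (K : Set A).Nonempty := ⟨0, K.zero_mem⟩

/-- If `x ≡ y` modulo `K` then `d(x,K) ≤ ‖y‖`. -/
theorem infDist_le_norm {K : TwoSidedIdeal A} {x y : A} (h : x - y ∈ K) :
    Metric.infDist x (K : Set A) ≤ ‖y‖ := by
  have h1 : Metric.infDist x (K : Set A) ≤ dist x (x - y) := Metric.infDist_le_dist_of_mem h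
  simpa [dist_eq_norm] using h1

end

/-- **Main theorem.** For every complex unital Banach algebra `A`, the set of proper closed
two-sided ideals `K` of `A` such that `A/K` is Dedekind finite is closed in the Wijsman
topology. -/
theorem result (A : Type u) [NormedRing A] [NormedAlgebra ℂ A] [CompleteSpace A] :
    IsClosed (DF A) := by
  rw [← isOpen_compl_iff, isOpen_iff_mem_nhds]
  intro K hK
  rw [mem_compl_iff, mem_DF_iff] at hK
  push Not at hK
  obtain ⟨a, b, hab, hba⟩ := hK
  -- `p = b * a - 1` is at positive distance from `K`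
  have hpos : 0 < Metric.infDist (b * a - 1) (K.1 : Set A) := by
    rw [← K.2.1.notMem_iff_infDist_pos (infDist_nonempty K.1)]
    exact hba
  set η : ℝ := Metric.infDist (b * a - 1) (K.1 : Set A) / 2 with hη
  have hηpos : 0 < η := by positivity
  set M : ℝ := ‖a‖ * ‖b‖ + 1 with hM
  have hMpos : 0 < M := by positivity
  set ε : ℝ := min (1 / 2) (η / (2 * M)) with hε
  have hεpos : 0 < ε := by positivity
  have h1 : ∀ᶠ L in 𝓝 K, Metric.infDist (a * b - 1) (L.1 : Set A) < ε := by
    have h0 : Metric.infDist (a * b - 1) (K.1 : Set A) < ε := by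
      rw [Metric.infDist_zero_of_mem (show a * b - 1 ∈ (K.1 : Set A) from hab)]
      exact hεpos
    exact (continuous_infDist (a * b - 1)).continuousAt.eventually_lt_const h0
  have h2 : ∀ᶠ L in 𝓝 K, η < Metric.infDist (b * a - 1) (L.1 : Set A) := by
    have h0 : η < Metric.infDist (b * a - 1) (K.1 : Set A) := by
      rw [hη]; linarith
    exact (continuous_infDist (b * a - 1)).continuousAt.eventually_const_lt h0
  filter_upwards [h1, h2] with L hL1 hL2
  rw [mem_compl_iff, mem_DF_iff]
  intro hL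
  -- an approximate identity relation lifts to an exact one
  obtain ⟨k, hkL, hk⟩ := (Metric.infDist_lt_iff (infDist_nonempty L.1)).mp hL1
  have hkε : ‖1 - (a * b - k)‖ < ε := by
    have : 1 - (a * b - k) = -(a * b - 1 - k) := by abel
    rw [this, norm_neg, ← dist_eq_norm]
    exact hk
  have hlt1 : ‖1 - (a * b - k)‖ < 1 :=
    hkε.trans_le ((min_le_left _ _).trans (by norm_num))
  let u : Aˣ := Units.oneSub (1 - (a * b - k)) hlt1
  have hu : (u : A) = a * b - k := by
    show 1 - (1 - (a * b - k)) = _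
    abel
  have hc : ‖1 - (u : A)‖ < ε := by rw [hu]; exact hkε
  -- norm of the inverse
  have hid : (↑u⁻¹ : A) - 1 = (↑u⁻¹ : A) * (1 - u) := by
    rw [mul_sub, mul_one, Units.inv_mul]
  have hid2 : (↑u⁻¹ : A) - 1 = ((↑u⁻¹ : A) - 1) * (1 - u) + (1 - u) := by
    rw [sub_mul, one_mul, ← hid]; abel
  have hb1 : ‖(↑u⁻¹ : A) - 1‖ ≤ 2 * ε := by
    have e1 : ‖(↑u⁻¹ : A) - 1‖ ≤ ‖(↑u⁻¹ : A) - 1‖ * ‖1 - (u : A)‖ + ‖1 - (u : A)‖ := by
      calc ‖(↑u⁻¹ : A) - 1‖ = ‖((↑u⁻¹ : A) - 1) * (1 - u) + (1 - u)‖ := by rw [← hid2]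
        _ ≤ ‖((↑u⁻¹ : A) - 1) * (1 - u)‖ + ‖1 - (u : A)‖ := norm_add_le _ _
        _ ≤ _ := by gcongr; exact norm_mul_le _ _
    have e2 : ‖1 - (u : A)‖ ≤ 1 / 2 := hc.le.trans (min_le_left _ _)
    have e3 : 0 ≤ ‖(↑u⁻¹ : A) - 1‖ := norm_nonneg _
    nlinarith [hc.le]
  -- exact relation modulo `L`
  have hex : (↑u⁻¹ * a) * b - 1 ∈ L.1 := by
    have : (↑u⁻¹ * a) * b - 1 = ↑u⁻¹ * k := by
      have e : k = a * b - u := by rw [hu]; abel
      rw [e, mul_sub, Units.inv_mul, mul_assoc]
    rw [this]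
    exact L.1.mul_mem_left _ _ hkL
  have hex2 := hL _ _ hex
  -- distance of `b * a - 1` to `L`
  have hdist : Metric.infDist (b * a - 1) (L.1 : Set A) ≤ ‖b * (1 - ↑u⁻¹) * a‖ := by
    apply infDist_le_norm
    have : b * a - 1 - b * (1 - ↑u⁻¹) * a = b * (↑u⁻¹ * a) - 1 := by noncomm_ring
    rw [this]
    exact hex2
  have hfin : ‖b * (1 - (↑u⁻¹ : A)) * a‖ ≤ η := by
    calc ‖b * (1 - (↑u⁻¹ : A)) * a‖ ≤ ‖b‖ * ‖1 - (↑u⁻¹ : A)‖ * ‖a‖ := by
          refine (norm_mul_le _ _).trans ?_
          gcongr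
          exact norm_mul_le _ _
      _ ≤ ‖b‖ * (2 * ε) * ‖a‖ := by
          gcongr
          rw [norm_sub_rev]
          exact hb1
      _ = 2 * ε * (‖a‖ * ‖b‖) := by ring
      _ ≤ 2 * ε * M := by
          gcongr
          rw [hM]; linarith
      _ ≤ 2 * (η / (2 * M)) * M := by
          gcongr
          exact min_le_right _ _
      _ = η := by field_simp
  linarith

end Pool.Agent.Results.MP_332c3b_lc.DedekindFiniteClosed
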